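import Pool.Agent.W5h6.MC.Main2

/-! MP_927be3_nt: the asymptotic formula for lattice points near `k`-spheres with almost all centres. -/

set_option autoImplicit false

open MeasureTheory

namespace Pool.Agent.Results.MP_927be3_nt.AlmostAllCentres

/-- Let `k ≥ 2` and `d ≥ k+1`. For almost every centre `θ ∈ ℝ^d` and every `σ > 0`: the number of
integer points `m` with `|∑ |m_i - θ_i|^k - r^k| ≤ w` is asymptotic to
`2 w (2Γ(1+1/k))^d / Γ(d/k) r^(d-k)` as `r → ∞`, uniformly for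
`r^(k-d/2+σ) ≤ w ≤ r^(k-σ)`; for `d ≥ 2k+1` this contains all fixed windows `w`. -/
theorem result (k d : ℕ) (hk : 2 ≤ k) (hd : k + 1 ≤ d) :
    ∀ᵐ θ : Fin d → ℝ, ∀ σ : ℝ, 0 < σ → ∀ ε : ℝ, 0 < ε → ∃ r₀ : ℝ, ∀ r w : ℝ,
      r₀ ≤ r → r ^ ((k : ℝ) - d / 2 + σ) ≤ w → w ≤ r ^ ((k : ℝ) - σ) →
      {m : Fin d → ℤ | |∑ i, |(m i : ℝ) - θ i| ^ k - r ^ k| ≤ w}.Finite ∧
      |({m : Fin d → ℤ | |∑ i, |(m i : ℝ) - θ i| ^ k - r ^ k| ≤ w}.ncard : ℝ) -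
        2 * (2 * Real.Gamma (1 / (k : ℝ) + 1)) ^ d / Real.Gamma ((d : ℝ) / k) *
          (w * r ^ ((d : ℝ) - k))| ≤ ε * (w * r ^ ((d : ℝ) - k)) :=
  Pool.Agent.W5h6.MC.main2' hk hd

end Pool.Agent.Results.MP_927be3_nt.AlmostAllCentres
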