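import Pool.Agent.W5h31.MS.G5

/-!
# Lattice points near generic diagonal `k`-spheres

For almost every vector `α` of positive coefficients in dimension `d >= k+1`, the number of
integer points in the shell `|∑ α_i |m_i|^k - r^k| <= w` has the order of magnitude
`w r^(d-k)`, for all large real radii `r` and all `w` between `r^(k-d/2+ε)` and `δ r^(k-1)`.
From dimension `2k+1` on this contains the windows of bounded width.
-/

namespace Pool.Agent.Results.MP_927be3_nt.AlmostAllCoefficients

open MeasureTheory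

/-- The integer points `m` with `|∑ α_i |m_i|^k - r^k| <= w`. -/
def shell {d : ℕ} (k : ℕ) (α : Fin d → ℝ) (r w : ℝ) : Set (Fin d → ℤ) :=
  {m | |(∑ i, α i * |(m i : ℝ)| ^ k) - r ^ k| ≤ w}

/-- For almost every vector `α` of positive coefficients in dimension `d >= k+1` there are
positive constants `c, C, δ` such that for every `ε > 0`, all large `r` and all `w` with
`r^(k-d/2+ε) <= w <= δ r^(k-1)`, the number of integer points in the shell of radius `r` and
thickness `w` lies between `c w r^(d-k)` and `C w r^(d-k)`. -/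
theorem result (k d : ℕ) (hk : 2 ≤ k) (hd : k + 1 ≤ d) :
    ∀ᵐ α : Fin d → ℝ, (∀ i, 0 < α i) →
      ∃ c C δ : ℝ, 0 < c ∧ 0 < C ∧ 0 < δ ∧ ∀ ε : ℝ, 0 < ε →
        ∃ r₀ : ℝ, ∀ r w : ℝ, r₀ ≤ r → r ^ ((k : ℝ) - (d : ℝ) / 2 + ε) ≤ w →
          w ≤ δ * r ^ (k - 1) →
          (shell k α r w).Finite ∧
          c * (w * r ^ (d - k)) ≤ ((shell k α r w).ncard : ℝ) ∧
          ((shell k α r w).ncard : ℝ) ≤ C * (w * r ^ (d - k)) := by
  obtain ⟨n, rfl⟩ : ∃ n, d = k + n := ⟨d - k, by omega⟩
  have h2 : k + n - k = n := by omega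
  rw [h2]
  exact W5h31.MS.main_ae2 k n hk (by omega)

end Pool.Agent.Results.MP_927be3_nt.AlmostAllCoefficients
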