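import Mathlib
import Pool.Agent.TH854.KS.K7

/-!
# Arithmetic `k`-spheres: local obstructions and the minimal dimension

`S_{k,d}(r)` is the arithmetic `k`-sphere, `N_{k,d}(r)` its number of elements, `d_0(k)` the smallest dimension in
which `N_{k,d}(r) ≍ r^{d-k}` (for the radii with `S_{k,d}(r) ≠ ∅`).

1. Let `p` be a prime and `γ ≤ k`, such that a sum of `d` `k`-th powers is divisible by `p^γ` only if all the terms
   are divisible by `p`. Then `S_{k,d}(p r) = p S_{k,d}(r)`, `N_{k,d}(p r) = N_{k,d}(r)` for all radii, and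
   the order of magnitude `N_{k,d}(r) ≍ r^{d-k}` fails in dimension `d` (`k ≥ 3`, `d ≥ 1`).
2. So `d_0(k) ≥ p^(a+1)` if `p` is prime and `p^a (p - 1)` divides `k`, and `d_0(k) ≥ 2^(m+2)` if `2^m` divides `k`,
   `m ≥ 1` (`k ≥ 3`).
3. In particular `d_0(k) ≥ 4k` if `k = 2^m`, `m ≥ 2`; `d_0(k) ≥ k + p^a` if `k = p^a (p - 1)`; `d_0(k) ≥ 4k/3` if
   `k = 3 · 2^m`, `m ≥ 1`.
-/

set_option autoImplicit false

open Finset

namespace Pool.Agent.Results.MP_927be3_nt.LocalObstructions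

/-- The arithmetic `k`-sphere `S_{k,d}(r)` of radius `r` in dimension `d`. -/
def sphere (k d : ℕ) (r : ℝ) : Set (Fin d → ℤ) := {m | ∑ i, |(m i : ℝ)| ^ k = r ^ k}

/-- `N_{k,d}(r) ≍ r^{d-k}`: there are `0 < c ≤ C` and `r₀` with `c r^{d-k} ≤ N_{k,d}(r) ≤ C r^{d-k}`
for all radii `r ≥ r₀`, `r > 0`, with non-empty `S_{k,d}(r)`. -/
def OrderHolds (k d : ℕ) : Prop :=
  ∃ c C r₀ : ℝ, 0 < c ∧ c ≤ C ∧ ∀ r : ℝ, 0 < r → r₀ ≤ r → (sphere k d r).Nonempty →
    c * r ^ ((d : ℝ) - k) ≤ ((sphere k d r).ncard : ℝ) ∧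
      ((sphere k d r).ncard : ℝ) ≤ C * r ^ ((d : ℝ) - k)

/-- A sum of `d` `k`-th powers is divisible by `p ^ γ` only if all the terms are divisible by `p`. -/
def OnlyTrivial (k d p γ : ℕ) : Prop := ∀ x : Fin d → ℕ, p ^ γ ∣ ∑ i, x i ^ k → ∀ i, p ∣ x i

lemma cast_sum (k d : ℕ) (m : Fin d → ℤ) :
    ∑ i, |(m i : ℝ)| ^ k = ((∑ i, (m i).natAbs ^ k : ℕ) : ℝ) := by
  push_cast
  refine sum_congr rfl fun i _ => ?_
  rw [Nat.cast_natAbs, Int.cast_abs]

/-- the descent -/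
lemma descent (k d p γ : ℕ) (hp : p.Prime) (hγ : γ ≤ k) (h : OnlyTrivial k d p γ) (r : ℝ) (n : ℕ)
    (hn : r ^ k = n) : sphere k d (p * r) = (fun m : Fin d → ℤ => fun i => (p : ℤ) * m i) '' sphere k d r := by
  have hp0 : (0 : ℝ) < (p : ℝ) := by exact_mod_cast hp.pos
  ext m
  constructor
  · intro hm
    have h1 : ((∑ i, (m i).natAbs ^ k : ℕ) : ℝ) = ((p ^ k * n : ℕ) : ℝ) := by
      rw [← cast_sum]
      have : ∑ i, |(m i : ℝ)| ^ k = ((p : ℝ) * r) ^ k := hm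
      rw [this, mul_pow, hn]
      push_cast
      ring
    have h2 : ∑ i, (m i).natAbs ^ k = p ^ k * n := by exact_mod_cast h1
    have h3 : p ^ γ ∣ ∑ i, (m i).natAbs ^ k := by
      rw [h2]
      exact Dvd.dvd.mul_right (pow_dvd_pow p hγ) n
    have h4 := h (fun i => (m i).natAbs) h3
    have h5 : ∀ i, ∃ t : ℤ, m i = p * t := fun i => by
      have : (p : ℤ) ∣ m i := Int.natCast_dvd.2 (h4 i)
      exact this
    choose t ht using h5
    refine ⟨t, ?_, ?_⟩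
    · show ∑ i, |(t i : ℝ)| ^ k = r ^ k
      have hm' : ∑ i, |(m i : ℝ)| ^ k = ((p : ℝ) * r) ^ k := hm
      have h6 : ∑ i, |(m i : ℝ)| ^ k = (p : ℝ) ^ k * ∑ i, |(t i : ℝ)| ^ k := by
        rw [mul_sum]
        refine sum_congr rfl fun i _ => ?_
        rw [ht i]
        push_cast
        rw [abs_mul, mul_pow, abs_of_pos hp0]
      rw [h6, mul_pow] at hm'
      exact mul_left_cancel₀ (pow_ne_zero _ hp0.ne') hm'
    · funext i
      exact (ht i).symm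
  · rintro ⟨t, ht, rfl⟩
    show ∑ i, |(((p : ℤ) * t i : ℤ) : ℝ)| ^ k = ((p : ℝ) * r) ^ k
    have ht' : ∑ i, |(t i : ℝ)| ^ k = r ^ k := ht
    rw [mul_pow, ← ht', mul_sum]
    refine sum_congr rfl fun i _ => ?_
    push_cast
    rw [abs_mul, mul_pow, abs_of_pos hp0]

lemma card_eq (k d p γ : ℕ) (hp : p.Prime) (hγ : γ ≤ k) (h : OnlyTrivial k d p γ) (r : ℝ) (n : ℕ)
    (hn : r ^ k = n) : (sphere k d (p * r)).ncard = (sphere k d r).ncard := by
  rw [descent k d p γ hp hγ h r n hn]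
  refine Set.ncard_image_of_injective _ ?_
  intro a b hab
  funext i
  have := congrFun hab i
  simp only at this
  exact mul_left_cancel₀ (by exact_mod_cast hp.ne_zero) this

lemma fails (k d p γ : ℕ) (hk : 3 ≤ k) (hd : 1 ≤ d) (hp : p.Prime) (hγ : γ ≤ k) (h : OnlyTrivial k d p γ) :
    ¬ OrderHolds k d := by
  rintro ⟨c, C, r₀, hc, hcC, hr⟩
  have hdk : k + 2 ≤ d := by
    by_contra hcon
    exact Pool.Agent.TH854.KS.fails_low hk hd (by omega) ⟨c, C, r₀, hc, hr⟩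
  have hN : ∀ j : ℕ, (sphere k d ((p : ℝ) ^ j)).ncard = (sphere k d 1).ncard := by
    intro j
    induction j with
    | zero => simp
    | succ j ih =>
      rw [pow_succ', card_eq k d p γ hp hγ h ((p : ℝ) ^ j) (p ^ (j * k)) (by push_cast; rw [pow_mul]), ih]
  set N0 : ℕ := (sphere k d 1).ncard with hN0
  have hp2 : (2 : ℝ) ≤ p := by exact_mod_cast hp.two_le
  -- choose j large
  obtain ⟨j, hj⟩ := pow_unbounded_of_one_lt (max r₀ ((N0 : ℝ) / c)) (by linarith : (1 : ℝ) < p)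
  have hj1 : r₀ ≤ (p : ℝ) ^ j := (le_max_left _ _).trans hj.le
  have hj2 : (N0 : ℝ) / c < (p : ℝ) ^ j := (le_max_right _ _).trans_lt hj
  have hj0 : (0 : ℝ) < (p : ℝ) ^ j := by positivity
  have hj01 : (1 : ℝ) ≤ (p : ℝ) ^ j := one_le_pow₀ (by linarith)
  have hne : (sphere k d ((p : ℝ) ^ j)).Nonempty := by
    refine ⟨fun i => if i = ⟨0, hd⟩ then ((p : ℤ) ^ j) else 0, ?_⟩
    show ∑ i, |(((if i = (⟨0, hd⟩ : Fin d) then ((p : ℤ) ^ j) else 0 : ℤ)) : ℝ)| ^ k = ((p : ℝ) ^ j) ^ k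
    rw [Finset.sum_eq_single (⟨0, hd⟩ : Fin d)]
    · simp
    · intro b _ hb
      simp [hb, show k ≠ 0 by omega]
    · intro h0
      exact absurd (Finset.mem_univ _) h0
  have h1 := (hr _ hj0 hj1 hne).1
  rw [hN j] at h1
  have h2 : (p : ℝ) ^ j ≤ ((p : ℝ) ^ j) ^ ((d : ℝ) - k) := by
    calc (p : ℝ) ^ j = ((p : ℝ) ^ j) ^ (1 : ℝ) := (Real.rpow_one _).symm
      _ ≤ ((p : ℝ) ^ j) ^ ((d : ℝ) - k) := by
          refine Real.rpow_le_rpow_of_exponent_le hj01 ?_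
          have : ((k + 2 : ℕ) : ℝ) ≤ d := by exact_mod_cast hdk
          push_cast at this
          linarith
  have h3 : c * (p : ℝ) ^ j ≤ N0 := (mul_le_mul_of_nonneg_left h2 hc.le).trans h1
  rw [div_lt_iff₀ hc] at hj2
  linarith

/-- if all `k`-th powers are `0` or `1` modulo `p ^ γ` and `d < p ^ γ` -/
lemma only_of_zero_one (k d p γ : ℕ) (hd : d < p ^ γ)
    (h1 : ∀ x : ℕ, ¬ p ∣ x → x ^ k ≡ 1 [MOD p ^ γ]) (h0 : ∀ x : ℕ, p ∣ x → x ^ k ≡ 0 [MOD p ^ γ]) :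
    OnlyTrivial k d p γ := by
  classical
  intro x hx i
  have e1 : ∑ i, x i ^ k ≡ ∑ i, (if p ∣ x i then 0 else 1) [MOD p ^ γ] := by
    refine Nat.ModEq.sum fun i _ => ?_
    split_ifs with h
    · exact h0 _ h
    · exact h1 _ h
  have e2 : ∑ i, (if p ∣ x i then 0 else 1) = (univ.filter (fun i => ¬ p ∣ x i)).card := by
    rw [card_filter]
    refine sum_congr rfl fun i _ => ?_
    by_cases h : p ∣ x i <;> simp [h]
  rw [e2] at e1
  have e3 : p ^ γ ∣ (univ.filter (fun i => ¬ p ∣ x i)).card :=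
    (Nat.modEq_zero_iff_dvd.1 (e1.symm.trans (Nat.modEq_zero_iff_dvd.2 hx)))
  have e4 : (univ.filter (fun i => ¬ p ∣ x i)).card ≤ d := by
    calc (univ.filter (fun i => ¬ p ∣ x i)).card ≤ (univ : Finset (Fin d)).card := card_filter_le _ _
      _ = d := by simp
  have e5 : (univ.filter (fun i => ¬ p ∣ x i)).card = 0 := by
    by_contra hne
    have := Nat.le_of_dvd (Nat.pos_of_ne_zero hne) e3
    omega
  by_contra hi
  have : i ∈ univ.filter (fun i => ¬ p ∣ x i) := by simp [hi]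
  rw [card_eq_zero] at e5
  rw [e5] at this
  simp at this

lemma pow_zero_mod (k p γ : ℕ) (hγ : γ ≤ k) (x : ℕ) (hx : p ∣ x) : x ^ k ≡ 0 [MOD p ^ γ] :=
  Nat.modEq_zero_iff_dvd.2 ((pow_dvd_pow p hγ).trans (pow_dvd_pow_of_dvd hx k))

lemma prime_case (k d p a : ℕ) (hk : 3 ≤ k) (hd : 1 ≤ d) (hp : p.Prime) (hak : p ^ a * (p - 1) ∣ k)
    (h : OrderHolds k d) : p ^ (a + 1) ≤ d := by
  by_contra hcon
  push Not at hcon
  have hk0 : 0 < k := by omega
  have hle : p ^ a * (p - 1) ≤ k := Nat.le_of_dvd hk0 hak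
  have hp1 : 1 ≤ p - 1 := by have := hp.two_le; omega
  have hγ : a + 1 ≤ k := by
    rcases Nat.eq_zero_or_pos a with ha | ha
    · omega
    · have h1 : a + 1 ≤ p ^ a := by
        calc a + 1 ≤ 2 ^ a := Nat.lt_two_pow_self
          _ ≤ p ^ a := Nat.pow_le_pow_left hp.two_le a
      nlinarith
  refine fails k d p (a + 1) hk hd hp hγ ?_ h
  refine only_of_zero_one k d p (a + 1) hcon (fun x hx => ?_) (fun x hx => pow_zero_mod k p (a + 1) hγ x hx)
  obtain ⟨c, rfl⟩ := hak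
  have hco : Nat.Coprime x (p ^ (a + 1)) := Nat.Coprime.pow_right _ ((Nat.Prime.coprime_iff_not_dvd hp).2 hx).symm
  have h1 := Nat.ModEq.pow_totient hco
  rw [Nat.totient_prime_pow_succ hp] at h1
  have h2 := h1.pow c
  rw [one_pow, ← pow_mul] at h2
  exact h2

lemma odd_pow (m : ℕ) (x : ℕ) (hx : ¬ 2 ∣ x) : x ^ 2 ^ (m + 1) ≡ 1 [MOD 2 ^ (m + 3)] := by
  have hxo : x % 2 = 1 := by omega
  have hx1 : 1 ≤ x := by omega
  have key : ∀ m : ℕ, 2 ^ (m + 3) ∣ x ^ 2 ^ (m + 1) - 1 := by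
    intro m
    induction m with
    | zero =>
      obtain ⟨t, rfl⟩ : ∃ t, x = 2 * t + 1 := ⟨x / 2, by omega⟩
      have h1 : (2 * t + 1) ^ 2 ^ (0 + 1) - 1 = 4 * (t * (t + 1)) := by
        have : (2 * t + 1) ^ 2 ^ (0 + 1) = 4 * (t * (t + 1)) + 1 := by
          norm_num
          ring
        omega
      rw [h1]
      obtain ⟨s, hs⟩ : 2 ∣ t * (t + 1) := (Nat.even_mul_succ_self t).two_dvd
      rw [hs]
      exact ⟨s, by ring⟩
    | succ m ih =>
      have h1 : x ^ 2 ^ (m + 1 + 1) - 1 = (x ^ 2 ^ (m + 1) - 1) * (x ^ 2 ^ (m + 1) + 1) := by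
        have h2 : x ^ 2 ^ (m + 1 + 1) = x ^ 2 ^ (m + 1) * x ^ 2 ^ (m + 1) := by
          rw [← pow_add]
          congr 1
          ring
        have h3 : 1 ≤ x ^ 2 ^ (m + 1) := Nat.one_le_pow _ _ hx1
        obtain ⟨y, hy⟩ : ∃ y, x ^ 2 ^ (m + 1) = y + 1 := ⟨x ^ 2 ^ (m + 1) - 1, by omega⟩
        rw [h2, hy]
        have : (y + 1) * (y + 1) = y * (y + 1 + 1) + 1 := by ring
        rw [this]
        simp
      rw [h1]
      have h4 : 2 ∣ x ^ 2 ^ (m + 1) + 1 := by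
        have : (x ^ 2 ^ (m + 1)) % 2 = 1 := by
          rw [Nat.pow_mod, hxo]
          simp
        omega
      have h5 := mul_dvd_mul ih h4
      have h6 : 2 ^ (m + 3) * 2 = 2 ^ (m + 1 + 3) := by ring
      rwa [h6] at h5
  have h3 : 1 ≤ x ^ 2 ^ (m + 1) := Nat.one_le_pow _ _ hx1
  exact ((Nat.modEq_iff_dvd' h3).2 (key m)).symm

lemma two_case (k d m : ℕ) (hk : 3 ≤ k) (hd : 1 ≤ d) (hm : 1 ≤ m) (hmk : 2 ^ m ∣ k) (h : OrderHolds k d) :
    2 ^ (m + 2) ≤ d := by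
  by_contra hcon
  push Not at hcon
  obtain ⟨n, rfl⟩ : ∃ n, m = n + 1 := ⟨m - 1, by omega⟩
  have hk0 : 0 < k := by omega
  have hle : 2 ^ (n + 1) ≤ k := Nat.le_of_dvd hk0 hmk
  have hγ : n + 3 ≤ k := by
    rcases Nat.lt_or_ge n 1 with hn | hn
    · obtain rfl : n = 0 := by omega
      obtain ⟨c, rfl⟩ := hmk
      omega
    · have : n + 3 ≤ 2 ^ (n + 1) := by
        clear hcon hmk hle h
        induction n, hn using Nat.le_induction with
        | base => norm_num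
        | succ n hn ih =>
          rw [pow_succ]
          omega
      omega
  refine fails k d 2 (n + 3) hk hd Nat.prime_two hγ ?_ h
  refine only_of_zero_one k d 2 (n + 3) hcon (fun x hx => ?_) (fun x hx => pow_zero_mod k 2 (n + 3) hγ x hx)
  obtain ⟨c, rfl⟩ := hmk
  have h2 := (odd_pow n x hx).pow c
  rw [one_pow, ← pow_mul] at h2
  exact h2

/-- **Local obstructions.** (1) the general principle; (2) the two families of bounds; (3) special cases. -/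
theorem result :
    (∀ k d p γ : ℕ, p.Prime → γ ≤ k → OnlyTrivial k d p γ →
      (∀ (r : ℝ) (n : ℕ), r ^ k = n →
        sphere k d (p * r) = (fun m : Fin d → ℤ => fun i => (p : ℤ) * m i) '' sphere k d r ∧
          (sphere k d (p * r)).ncard = (sphere k d r).ncard) ∧
      (3 ≤ k → 1 ≤ d → ¬ OrderHolds k d)) ∧
    (∀ k d : ℕ, 3 ≤ k → 1 ≤ d → OrderHolds k d →
      (∀ p a : ℕ, p.Prime → p ^ a * (p - 1) ∣ k → p ^ (a + 1) ≤ d) ∧
      (∀ m : ℕ, 1 ≤ m → 2 ^ m ∣ k → 2 ^ (m + 2) ≤ d)) ∧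
    (∀ m d : ℕ, 2 ≤ m → 1 ≤ d → OrderHolds (2 ^ m) d → 4 * 2 ^ m ≤ d) ∧
    (∀ p a d : ℕ, p.Prime → 3 ≤ p ^ a * (p - 1) → 1 ≤ d → OrderHolds (p ^ a * (p - 1)) d →
      p ^ a * (p - 1) + p ^ a ≤ d) ∧
    (∀ m d : ℕ, 1 ≤ m → 1 ≤ d → OrderHolds (3 * 2 ^ m) d → 4 * (3 * 2 ^ m) ≤ 3 * d) := by
  refine ⟨fun k d p γ hp hγ h => ⟨fun r n hn => ⟨descent k d p γ hp hγ h r n hn,
    card_eq k d p γ hp hγ h r n hn⟩, fun hk hd => fails k d p γ hk hd hp hγ h⟩,
    fun k d hk hd h => ⟨fun p a hp ha => prime_case k d p a hk hd hp ha h,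
      fun m hm hmk => two_case k d m hk hd hm hmk h⟩, ?_, ?_, ?_⟩
  · intro m d hm hd h
    have hk : 3 ≤ 2 ^ m := by
      calc 3 ≤ 2 ^ 2 := by norm_num
        _ ≤ 2 ^ m := Nat.pow_le_pow_right (by norm_num) hm
    have := two_case (2 ^ m) d m hk hd (by omega) dvd_rfl h
    rw [pow_add] at this
    omega
  · intro p a d hp hk hd h
    have := prime_case _ d p a hk hd hp dvd_rfl h
    have h2 : p ^ a * (p - 1) + p ^ a = p ^ (a + 1) := by
      obtain ⟨q, rfl⟩ : ∃ q, p = q + 1 := ⟨p - 1, by have := hp.two_le; omega⟩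
      rw [pow_succ]
      simp
      ring
    omega
  · intro m d hm hd h
    have hk : 3 ≤ 3 * 2 ^ m := by
      have : 1 ≤ 2 ^ m := Nat.one_le_two_pow
      omega
    have := two_case (3 * 2 ^ m) d m hk hd hm (Dvd.intro_left 3 rfl) h
    rw [pow_add] at this
    omega

end Pool.Agent.Results.MP_927be3_nt.LocalObstructions
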