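import Mathlib

open Finset

namespace Pool.Agent.Results.MP_927be3_nt.TwoGoodDimensions

/-- The arithmetic `k`-sphere `S_{k,d}(r)` of radius `r` in dimension `d`. -/
def sphere (k d : ℕ) (r : ℝ) : Set (Fin d → ℤ) := {m | ∑ i, |(m i : ℝ)| ^ k = r ^ k}

/-- The upper half of the order of magnitude: `N_{k,d}(r) ≤ C r^{d-k}` for all large radii. -/
def UpperHolds (k d : ℕ) : Prop :=
  ∃ C r₀ : ℝ, ∀ r : ℝ, 0 < r → r₀ ≤ r → (sphere k d r).Nonempty →
    ((sphere k d r).ncard : ℝ) ≤ C * r ^ ((d : ℝ) - k)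

/-- The lower half: `N_{k,d}(r) ≥ c r^{d-k}` for all large radii with `S_{k,d}(r)` non-empty. -/
def LowerHolds (k d : ℕ) : Prop :=
  ∃ c r₀ : ℝ, 0 < c ∧ ∀ r : ℝ, 0 < r → r₀ ≤ r → (sphere k d r).Nonempty →
    c * r ^ ((d : ℝ) - k) ≤ ((sphere k d r).ncard : ℝ)

/-- `N_{k,d}(r) ≍ r^{d-k}`: there are `0 < c ≤ C` and `r₀` with `c r^{d-k} ≤ N_{k,d}(r) ≤ C r^{d-k}`
for all radii `r ≥ r₀`, `r > 0`, with non-empty `S_{k,d}(r)`. -/
def OrderHolds (k d : ℕ) : Prop :=
  ∃ c C r₀ : ℝ, 0 < c ∧ c ≤ C ∧ ∀ r : ℝ, 0 < r → r₀ ≤ r → (sphere k d r).Nonempty →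
    c * r ^ ((d : ℝ) - k) ≤ ((sphere k d r).ncard : ℝ) ∧
      ((sphere k d r).ncard : ℝ) ≤ C * r ^ ((d : ℝ) - k)

/-- The integer vectors with `∑ |m_i|^k = n`. -/
noncomputable def T (k d n : ℕ) : Finset (Fin d → ℤ) :=
  (Fintype.piFinset (fun _ : Fin d => Finset.Icc (-(n : ℤ)) n)).filter
    (fun m => ∑ i, (m i).natAbs ^ k = n)

lemma mem_T {k d n : ℕ} (hk : 1 ≤ k) (m : Fin d → ℤ) :
    m ∈ T k d n ↔ ∑ i, (m i).natAbs ^ k = n := by
  unfold T
  rw [Finset.mem_filter, Fintype.mem_piFinset]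
  constructor
  · exact fun h => h.2
  · intro h
    refine ⟨fun i => ?_, h⟩
    have h1 : (m i).natAbs ^ k ≤ n := by
      rw [← h]
      exact Finset.single_le_sum (f := fun i => (m i).natAbs ^ k) (fun _ _ => Nat.zero_le _)
        (Finset.mem_univ i)
    have h2 : (m i).natAbs ≤ n := le_trans (Nat.le_self_pow (by omega) _) h1
    rw [Finset.mem_Icc]
    omega

lemma sphere_eq {k d n : ℕ} (hk : 1 ≤ k) {r : ℝ} (hr : r ^ k = n) :
    sphere k d r = ↑(T k d n) := by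
  ext m
  rw [Finset.mem_coe, mem_T hk]
  unfold sphere
  rw [Set.mem_ofPred_eq, hr]
  have : (∑ i, |(m i : ℝ)| ^ k) = ((∑ i, (m i).natAbs ^ k : ℕ) : ℝ) := by
    push_cast
    refine Finset.sum_congr rfl (fun i _ => ?_)
    rw [Nat.cast_natAbs]
    push_cast
    rfl
  rw [this]
  exact_mod_cast Iff.rfl

/-- The radius belonging to `n`. -/
noncomputable def rad (k n : ℕ) : ℝ := (n : ℝ) ^ ((1 : ℝ) / k)

lemma rad_nonneg (k n : ℕ) : 0 ≤ rad k n := Real.rpow_nonneg (Nat.cast_nonneg _) _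

lemma rad_pow {k : ℕ} (hk : 1 ≤ k) (n : ℕ) : rad k n ^ k = n := by
  unfold rad
  rw [← Real.rpow_natCast, ← Real.rpow_mul (Nat.cast_nonneg _)]
  have : (1 : ℝ) / k * k = 1 := by
    field_simp
  rw [this, Real.rpow_one]

lemma one_le_rad {k n : ℕ} (hk : 1 ≤ k) (hn : 1 ≤ n) : 1 ≤ rad k n := by
  unfold rad
  exact Real.one_le_rpow (by exact_mod_cast hn) (by positivity)

lemma le_rad {k n : ℕ} (hk : 1 ≤ k) {x : ℝ} (h : x ^ k ≤ n) (_hx : 0 ≤ x) : x ≤ rad k n := by
  rw [← rad_pow hk] at h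
  exact le_of_pow_le_pow_left₀ (by omega) (rad_nonneg _ _) h

lemma rad_eq {k n : ℕ} (hk : 1 ≤ k) {r : ℝ} (hr : 0 < r) (h : r ^ k = n) : rad k n = r := by
  rw [← rad_pow hk] at h
  exact ((pow_left_inj₀ hr.le (rad_nonneg _ _) (by omega)).1 h).symm

/-- If the sphere is non-empty then `r ^ k` is a natural number. -/
lemma exists_nat {k d : ℕ} {r : ℝ} (h : (sphere k d r).Nonempty) : ∃ n : ℕ, r ^ k = n := by
  obtain ⟨m, hm⟩ := h
  refine ⟨∑ i, (m i).natAbs ^ k, ?_⟩
  unfold sphere at hm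
  rw [Set.mem_ofPred_eq] at hm
  rw [← hm]
  push_cast
  refine Finset.sum_congr rfl (fun i _ => ?_)
  rw [Nat.cast_natAbs]
  push_cast
  rfl

lemma rpow_conv {k d : ℕ} (hkd : k ≤ d) {r : ℝ} (_hr : 0 < r) :
    r ^ ((d : ℝ) - k) = r ^ (d - k) := by
  rw [← Nat.cast_sub hkd, Real.rpow_natCast]

/-- natural number form of the upper bound -/
def U (k d : ℕ) : Prop := ∃ C : ℝ, 1 ≤ C ∧ ∀ n : ℕ, 1 ≤ n → ∀ x ≤ n,
  ((T k d x).card : ℝ) ≤ C * rad k n ^ (d - k)

/-- natural number form of the lower bound -/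
def L (k d : ℕ) : Prop := ∃ c R₀ : ℝ, 0 < c ∧ ∀ n : ℕ, 1 ≤ n → R₀ ≤ rad k n →
  (T k d n).Nonempty → c * rad k n ^ (d - k) ≤ ((T k d n).card : ℝ)

lemma le_of_upper {k d : ℕ} (hk : 1 ≤ k) (hd : 1 ≤ d) (h : UpperHolds k d) : k ≤ d := by
  obtain ⟨C, r₀, h⟩ := h
  by_contra hcon
  push Not at hcon
  obtain ⟨m, hm⟩ := exists_nat_gt (max (max C r₀) 1)
  have hm1 : C < m := lt_of_le_of_lt (le_trans (le_max_left _ _) (le_max_left _ _)) hm
  have hm2 : r₀ < m := lt_of_le_of_lt (le_trans (le_max_right _ _) (le_max_left _ _)) hm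
  have hm3 : (1 : ℝ) < m := lt_of_le_of_lt (le_max_right _ _) hm
  have hpos : (0 : ℝ) < m := by linarith
  have hpow : (m : ℝ) ^ k = ((m ^ k : ℕ) : ℝ) := by push_cast; rfl
  have hne : (T k d (m ^ k)).Nonempty := by
    refine ⟨fun i => if i = ⟨0, hd⟩ then (m : ℤ) else 0, ?_⟩
    rw [mem_T hk]
    rw [Finset.sum_eq_single ⟨0, hd⟩]
    · simp
    · intro b _ hb
      simp [hb, show k ≠ 0 by omega]
    · simp
  have hs := sphere_eq (k := k) (d := d) hk hpow
  have h1 := h m hpos hm2.le (by rw [hs]; exact_mod_cast hne)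
  rw [hs, Set.ncard_coe_finset] at h1
  have h2 : (1 : ℝ) ≤ ((T k d (m ^ k)).card : ℝ) := by
    exact_mod_cast hne.card_pos
  have h3 : (m : ℝ) ^ ((d : ℝ) - k) ≤ (m : ℝ) ^ (-1 : ℝ) := by
    apply Real.rpow_le_rpow_of_exponent_le hm3.le
    have : (d : ℝ) + 1 ≤ k := by exact_mod_cast hcon
    linarith
  have hC : 0 < C := by
    by_contra hC
    push Not at hC
    have : C * (m : ℝ) ^ ((d : ℝ) - k) ≤ 0 := mul_nonpos_of_nonpos_of_nonneg hC (by positivity)
    linarith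
  have h4 : C * (m : ℝ) ^ ((d : ℝ) - k) ≤ C * (m : ℝ) ^ (-1 : ℝ) :=
    mul_le_mul_of_nonneg_left h3 hC.le
  rw [Real.rpow_neg_one] at h4
  have h5 : C * (m : ℝ)⁻¹ < 1 := by
    rw [← div_eq_mul_inv, div_lt_one hpos]
    exact hm1
  linarith

lemma U_of_upper {k d : ℕ} (hk : 1 ≤ k) (hd : 1 ≤ d) (h : UpperHolds k d) : U k d := by
  have hkd := le_of_upper hk hd h
  obtain ⟨C, r₀, h⟩ := h
  set M : ℕ := ⌈(max r₀ 0) ^ k⌉₊ with hM
  set C1 : ℝ := ∑ x ∈ Finset.range (M + 1), ((T k d x).card : ℝ) with hC1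
  refine ⟨max 1 (max C C1), le_max_left _ _, ?_⟩
  intro n hn x hx
  have hR : 1 ≤ rad k n := one_le_rad hk hn
  have hRp : 1 ≤ rad k n ^ (d - k) := one_le_pow₀ hR
  have hmax : (0 : ℝ) ≤ max 1 (max C C1) := le_trans zero_le_one (le_max_left _ _)
  by_cases hxM : x ≤ M
  · have h1 : ((T k d x).card : ℝ) ≤ C1 := by
      rw [hC1]
      exact Finset.single_le_sum (f := fun x => ((T k d x).card : ℝ))
        (fun _ _ => Nat.cast_nonneg _) (Finset.mem_range.2 (by omega))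
    calc ((T k d x).card : ℝ) ≤ C1 := h1
      _ ≤ max 1 (max C C1) := le_trans (le_max_right _ _) (le_max_right _ _)
      _ = max 1 (max C C1) * 1 := by ring
      _ ≤ _ := mul_le_mul_of_nonneg_left hRp hmax
  · push Not at hxM
    have hx1 : 1 ≤ x := by omega
    have hRx : 1 ≤ rad k x := one_le_rad hk hx1
    have hr0 : r₀ ≤ rad k x := by
      refine le_trans (le_max_left _ 0) (le_rad hk ?_ (le_max_right _ _))
      calc (max r₀ 0) ^ k ≤ (M : ℝ) := Nat.le_ceil _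
        _ ≤ x := by exact_mod_cast hxM.le
    by_cases hne : (T k d x).Nonempty
    · have hs := sphere_eq (k := k) (d := d) hk (rad_pow hk x)
      have h1 := h (rad k x) (by linarith) hr0 (by rw [hs]; exact_mod_cast hne)
      rw [hs, Set.ncard_coe_finset, rpow_conv hkd (by linarith)] at h1
      have h2 : rad k x ≤ rad k n := le_rad hk (by rw [rad_pow hk]; exact_mod_cast hx) (rad_nonneg _ _)
      have h3 : rad k x ^ (d - k) ≤ rad k n ^ (d - k) := pow_le_pow_left₀ (rad_nonneg _ _) h2 _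
      calc ((T k d x).card : ℝ) ≤ C * rad k x ^ (d - k) := h1
        _ ≤ max 1 (max C C1) * rad k x ^ (d - k) :=
          mul_le_mul_of_nonneg_right (le_trans (le_max_left _ _) (le_max_right _ _)) (by positivity)
        _ ≤ _ := mul_le_mul_of_nonneg_left h3 hmax
    · rw [Finset.not_nonempty_iff_eq_empty] at hne
      rw [hne, Finset.card_empty, Nat.cast_zero]
      positivity

lemma upper_of_U {k d : ℕ} (hk : 1 ≤ k) (hkd : k ≤ d) (h : U k d) : UpperHolds k d := by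
  obtain ⟨C, hC, h⟩ := h
  refine ⟨C, 1, ?_⟩
  intro r hr hr1 hne
  obtain ⟨n, hn⟩ := exists_nat hne
  have hn1 : 1 ≤ n := by
    have : (1 : ℝ) ≤ n := by
      rw [← hn]
      exact one_le_pow₀ hr1
    exact_mod_cast this
  rw [sphere_eq hk hn, Set.ncard_coe_finset, rpow_conv hkd hr]
  have := h n hn1 n le_rfl
  rwa [rad_eq hk hr hn] at this

lemma L_of_lower {k d : ℕ} (hk : 1 ≤ k) (hkd : k ≤ d) (h : LowerHolds k d) : L k d := by
  obtain ⟨c, r₀, hc, h⟩ := h
  refine ⟨c, r₀, hc, ?_⟩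
  intro n hn hR hne
  have hR1 : 1 ≤ rad k n := one_le_rad hk hn
  have hs := sphere_eq (k := k) (d := d) hk (rad_pow hk n)
  have h1 := h (rad k n) (by linarith) hR (by rw [hs]; exact_mod_cast hne)
  rwa [hs, Set.ncard_coe_finset, rpow_conv hkd (by linarith)] at h1

lemma lower_of_L {k d : ℕ} (hk : 1 ≤ k) (hkd : k ≤ d) (h : L k d) : LowerHolds k d := by
  obtain ⟨c, R₀, hc, h⟩ := h
  refine ⟨c, max R₀ 1, hc, ?_⟩
  intro r hr hr1 hne
  obtain ⟨n, hn⟩ := exists_nat hne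
  have hn1 : 1 ≤ n := by
    have : (1 : ℝ) ≤ n := by
      rw [← hn]
      exact one_le_pow₀ (le_trans (le_max_right _ _) hr1)
    exact_mod_cast this
  rw [sphere_eq hk hn] at hne ⊢
  rw [Set.ncard_coe_finset, rpow_conv hkd hr]
  have := h n hn1 (by rw [rad_eq hk hr hn]; exact le_trans (le_max_left _ _) hr1)
    (by exact_mod_cast hne)
  rwa [rad_eq hk hr hn] at this

lemma order_iff {k d : ℕ} : OrderHolds k d ↔ UpperHolds k d ∧ LowerHolds k d := by
  constructor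
  · rintro ⟨c, C, r₀, hc, _, h⟩
    exact ⟨⟨C, r₀, fun r h1 h2 h3 => (h r h1 h2 h3).2⟩, ⟨c, r₀, hc, fun r h1 h2 h3 => (h r h1 h2 h3).1⟩⟩
  · rintro ⟨⟨C, r₁, h1⟩, ⟨c, r₂, hc, h2⟩⟩
    refine ⟨c, max c C, max r₁ r₂, hc, le_max_left _ _, fun r h3 h4 h5 => ⟨?_, ?_⟩⟩
    · exact h2 r h3 (le_trans (le_max_right _ _) h4) h5
    · refine le_trans (h1 r h3 (le_trans (le_max_left _ _) h4) h5) ?_
      exact mul_le_mul_of_nonneg_right (le_max_right _ _) (by positivity)

/-- Slicing by the first coordinate. -/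
lemma fiber {k d n : ℕ} (hk : 1 ≤ k) (a : ℤ) (ha : a.natAbs ^ k ≤ n) :
    ((T k (d + 1) n).filter (fun m => m 0 = a)).card = (T k d (n - a.natAbs ^ k)).card := by
  refine Finset.card_bij' (fun m _ => Fin.tail m) (fun m _ => Fin.cons a m) ?_ ?_ ?_ ?_
  · intro m hm
    rw [Finset.mem_filter, mem_T hk, Fin.sum_univ_succ] at hm
    rw [mem_T hk]
    obtain ⟨h1, h2⟩ := hm
    rw [h2] at h1
    simp only [Fin.tail]
    omega
  · intro m hm
    rw [mem_T hk] at hm
    rw [Finset.mem_filter, mem_T hk, Fin.sum_univ_succ]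
    simp only [Fin.cons_zero, Fin.cons_succ, and_true]
    omega
  · intro m hm
    rw [Finset.mem_filter] at hm
    rw [← hm.2]
    exact Fin.cons_self_tail m
  · intro m _
    exact Fin.tail_cons (α := fun _ => ℤ) a m

/-- The integers `a` with `|a|^k ≤ n`. -/
noncomputable def Q (k n : ℕ) : Finset ℤ := (Finset.Icc (-(n : ℤ)) n).filter (fun a => a.natAbs ^ k ≤ n)

lemma mem_Q {k n : ℕ} (hk : 1 ≤ k) (a : ℤ) : a ∈ Q k n ↔ a.natAbs ^ k ≤ n := by
  unfold Q
  rw [Finset.mem_filter, Finset.mem_Icc]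
  constructor
  · exact fun h => h.2
  · intro h
    have h2 : a.natAbs ≤ n := le_trans (Nat.le_self_pow (by omega) _) h
    refine ⟨by omega, h⟩

lemma card_rec {k d n : ℕ} (hk : 1 ≤ k) :
    (T k (d + 1) n).card = ∑ a ∈ Q k n, (T k d (n - a.natAbs ^ k)).card := by
  rw [Finset.card_eq_sum_card_fiberwise (f := fun m => m 0) (t := Q k n)]
  · refine Finset.sum_congr rfl (fun a ha => ?_)
    exact fiber hk a ((mem_Q hk a).1 ha)
  · intro m hm
    have hm' := (mem_T hk m).1 (Finset.mem_coe.1 hm)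
    rw [Fin.sum_univ_succ] at hm'
    rw [Finset.mem_coe, mem_Q hk]
    show (m 0).natAbs ^ k ≤ n
    omega

lemma card_Q {k n : ℕ} (hk : 1 ≤ k) (hn : 1 ≤ n) : ((Q k n).card : ℝ) ≤ 3 * rad k n := by
  have hR := one_le_rad hk hn
  have h1 : Q k n ⊆ Finset.Icc (-(⌊rad k n⌋₊ : ℤ)) ⌊rad k n⌋₊ := by
    intro a ha
    rw [mem_Q hk] at ha
    have h2 : (a.natAbs : ℝ) ≤ rad k n := le_rad hk (by exact_mod_cast ha) (Nat.cast_nonneg _)
    have h3 : a.natAbs ≤ ⌊rad k n⌋₊ := Nat.le_floor h2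
    rw [Finset.mem_Icc]
    omega
  have h2 := Finset.card_le_card h1
  rw [Int.card_Icc] at h2
  have h3 : (Q k n).card ≤ 2 * ⌊rad k n⌋₊ + 1 := by omega
  have h4 : (⌊rad k n⌋₊ : ℝ) ≤ rad k n := Nat.floor_le (rad_nonneg _ _)
  have h5 : ((Q k n).card : ℝ) ≤ 2 * ⌊rad k n⌋₊ + 1 := by exact_mod_cast h3
  linarith

lemma U_succ {k d : ℕ} (hk : 1 ≤ k) (hkd : k ≤ d) (h : U k d) : U k (d + 1) := by
  obtain ⟨C, hC, h⟩ := h
  have key : ∀ n : ℕ, 1 ≤ n → ((T k (d + 1) n).card : ℝ) ≤ 3 * C * rad k n ^ (d + 1 - k) := by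
    intro n hn
    rw [card_rec hk, Nat.cast_sum]
    calc ∑ a ∈ Q k n, ((T k d (n - a.natAbs ^ k)).card : ℝ)
        ≤ ∑ a ∈ Q k n, C * rad k n ^ (d - k) := Finset.sum_le_sum (fun a _ => h n hn _ (Nat.sub_le _ _))
      _ = (Q k n).card * (C * rad k n ^ (d - k)) := by rw [Finset.sum_const, nsmul_eq_mul]
      _ ≤ (3 * rad k n) * (C * rad k n ^ (d - k)) := by
          have h0 := rad_nonneg k n
          exact mul_le_mul_of_nonneg_right (card_Q hk hn) (by positivity)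
      _ = 3 * C * rad k n ^ (d + 1 - k) := by
          rw [show d + 1 - k = (d - k) + 1 by omega, pow_succ]
          ring
  refine ⟨3 * C, by linarith, ?_⟩
  intro n hn x hx
  have hR := one_le_rad hk hn
  by_cases hx0 : x = 0
  · subst hx0
    have h1 : (T k (d + 1) 0).card ≤ 1 := by
      rw [Finset.card_le_one]
      intro a ha b hb
      rw [mem_T hk] at ha hb
      funext i
      have h1 := (Finset.sum_eq_zero_iff.1 ha) i (Finset.mem_univ _)
      have h2 := (Finset.sum_eq_zero_iff.1 hb) i (Finset.mem_univ _)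
      have h3 := pow_eq_zero_iff (show k ≠ 0 by omega) |>.1 h1
      have h4 := pow_eq_zero_iff (show k ≠ 0 by omega) |>.1 h2
      omega
    have h2 : ((T k (d + 1) 0).card : ℝ) ≤ 1 := by exact_mod_cast h1
    have h3 : 1 ≤ rad k n ^ (d + 1 - k) := one_le_pow₀ hR
    nlinarith
  · refine le_trans (key x (by omega)) ?_
    have h2 : rad k x ≤ rad k n := le_rad hk (by rw [rad_pow hk]; exact_mod_cast hx) (rad_nonneg _ _)
    have h3 : rad k x ^ (d + 1 - k) ≤ rad k n ^ (d + 1 - k) := pow_le_pow_left₀ (rad_nonneg _ _) h2 _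
    exact mul_le_mul_of_nonneg_left h3 (by linarith)

/-- Few integers `a` have `|a|` close to the radius. -/
lemma card_shell {k n : ℕ} (hk : 1 ≤ k) {δ : ℝ} (hδ : 0 < δ) (hδ1 : δ ≤ 1) :
    (((Q k n).filter (fun a => (1 - δ) * rad k n < (a.natAbs : ℝ))).card : ℝ)
      ≤ 2 * (δ * rad k n + 1) := by
  set R := rad k n with hRdef
  have hR0 : 0 ≤ R := rad_nonneg _ _
  set lo : ℕ := ⌊(1 - δ) * R⌋₊ with hlo
  set hi : ℕ := ⌊R⌋₊ with hhi
  have h1 : (Q k n).filter (fun a => (1 - δ) * R < (a.natAbs : ℝ)) ⊆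
      (Finset.Icc ((lo : ℤ) + 1) hi) ∪ (Finset.Icc (-(hi : ℤ)) (-(lo : ℤ) - 1)) := by
    intro a ha
    rw [Finset.mem_filter, mem_Q hk] at ha
    obtain ⟨ha1, ha2⟩ := ha
    have h2 : (a.natAbs : ℝ) ≤ R := le_rad hk (by exact_mod_cast ha1) (Nat.cast_nonneg _)
    have h3 : a.natAbs ≤ hi := Nat.le_floor h2
    have h4 : lo < a.natAbs := by
      rw [hlo]
      exact (Nat.floor_lt (mul_nonneg (by linarith) hR0)).2 ha2
    rw [Finset.mem_union, Finset.mem_Icc, Finset.mem_Icc]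
    omega
  have h2 := le_trans (Finset.card_le_card h1) (Finset.card_union_le _ _)
  rw [Int.card_Icc, Int.card_Icc] at h2
  have hle : lo ≤ hi := Nat.floor_mono (by nlinarith)
  have h3 : ((Q k n).filter (fun a => (1 - δ) * R < (a.natAbs : ℝ))).card + 2 * lo ≤ 2 * hi := by
    omega
  have h4 : (hi : ℝ) ≤ R := Nat.floor_le hR0
  have h5 : (1 - δ) * R < lo + 1 := Nat.lt_floor_add_one _
  have h6 : (((Q k n).filter (fun a => (1 - δ) * R < (a.natAbs : ℝ))).card : ℝ) + 2 * lo ≤ 2 * hi := by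
    exact_mod_cast h3
  linarith

/-- Removing one coordinate. -/
lemma removeNth_mem {k d n : ℕ} (hk : 1 ≤ k) (m : Fin (d + 1) → ℤ) (hm : m ∈ T k (d + 1) n)
    (i : Fin (d + 1)) : (m i).natAbs ^ k ≤ n ∧
      (fun j => m (i.succAbove j)) ∈ T k d (n - (m i).natAbs ^ k) := by
  rw [mem_T hk, Fin.sum_univ_succAbove _ i] at hm
  rw [mem_T hk]
  constructor <;> omega

lemma cons_mem {k d n : ℕ} (hk : 1 ≤ k) (a : ℤ) (m : Fin d → ℤ) (hm : m ∈ T k d n) :
    (Fin.cons a m : Fin (d + 1) → ℤ) ∈ T k (d + 1) (a.natAbs ^ k + n) := by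
  rw [mem_T hk] at hm
  rw [mem_T hk, Fin.sum_univ_succ]
  simp only [Fin.cons_zero, Fin.cons_succ]
  omega

/-- The main step: the upper bound in dimension `d` and the lower bound in dimension `d + 1` give the
lower bound in dimension `d + 2`. -/
lemma L_succ {k d : ℕ} (hk : 1 ≤ k) (hkd : k ≤ d) (hU : U k d) (hL : L k (d + 1)) :
    L k (d + 2) := by
  obtain ⟨C, hC, hU⟩ := hU
  obtain ⟨c, R₀, hc, hL⟩ := hL
  set e : ℕ := d + 1 - k with he
  set κ : ℝ := min (c / (2 ^ e * C)) 1 with hκ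
  have hκ0 : 0 < κ := lt_min (by positivity) one_pos
  have hκ1 : κ ≤ 1 := min_le_right _ _
  set δ : ℝ := κ / 8 with hδ
  have hδ0 : 0 < δ := by positivity
  have hδ1 : δ ≤ 1 := by linarith
  refine ⟨κ / 2 * (c * δ ^ e), max (8 / κ) (max (2 * R₀) (R₀ / δ)), by positivity, ?_⟩
  intro n hn hR hne
  set R := rad k n with hRdef
  have hR1 : 1 ≤ R := one_le_rad hk hn
  have hR0 : 0 ≤ R := by linarith
  have hRk : R ^ k = n := rad_pow hk n
  have hRa : 8 / κ ≤ R := le_trans (le_max_left _ _) hR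
  have hRb : 2 * R₀ ≤ R := le_trans (le_trans (le_max_left _ _) (le_max_right _ _)) hR
  have hRc : R₀ / δ ≤ R := le_trans (le_trans (le_max_right _ _) (le_max_right _ _)) hR
  -- choose a small coordinate
  obtain ⟨m, hm⟩ := hne
  have hsmall : ∃ i : Fin (d + 2), 2 * (m i).natAbs ^ k ≤ n := by
    have h1 := (mem_T hk m).1 hm
    rw [Fin.sum_univ_succ, Fin.sum_univ_succ] at h1
    by_cases h2 : 2 * (m 0).natAbs ^ k ≤ n
    · exact ⟨0, h2⟩
    · refine ⟨Fin.succ 0, ?_⟩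
      omega
  obtain ⟨i, hi⟩ := hsmall
  obtain ⟨hi1, hi2⟩ := removeNth_mem hk m hm i
  set n' : ℕ := n - (m i).natAbs ^ k with hn'
  have hn'1 : 1 ≤ n' := by omega
  have hn'2 : n ≤ 2 * n' := by omega
  have hR' : R / 2 ≤ rad k n' := by
    refine le_rad hk ?_ (by positivity)
    rw [div_pow, hRk]
    have h2 : (2 : ℝ) ≤ 2 ^ k := le_self_pow₀ (by norm_num) (by omega)
    have h3 : (n : ℝ) ≤ 2 * n' := by exact_mod_cast hn'2
    rw [div_le_iff₀ (by positivity)]
    have h4 : (0 : ℝ) ≤ n' := Nat.cast_nonneg _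
    nlinarith
  have hlow := hL n' hn'1 (by linarith) ⟨_, hi2⟩
  -- the set of good first coordinates
  set A : Finset ℤ := (Q k n').filter (fun a => (T k d (n' - a.natAbs ^ k)).Nonempty) with hA
  have hup : ((T k (d + 1) n').card : ℝ) ≤ A.card * (C * R ^ (d - k)) := by
    rw [card_rec hk, Nat.cast_sum, ← Finset.sum_filter_add_sum_filter_not (Q k n')
      (fun a => (T k d (n' - a.natAbs ^ k)).Nonempty)]
    have h1 : ∑ a ∈ (Q k n').filter (fun a => ¬ (T k d (n' - a.natAbs ^ k)).Nonempty),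
        ((T k d (n' - a.natAbs ^ k)).card : ℝ) = 0 := by
      refine Finset.sum_eq_zero (fun a ha => ?_)
      rw [Finset.mem_filter, Finset.not_nonempty_iff_eq_empty] at ha
      rw [ha.2, Finset.card_empty, Nat.cast_zero]
    rw [h1, add_zero]
    calc ∑ a ∈ A, ((T k d (n' - a.natAbs ^ k)).card : ℝ)
        ≤ ∑ a ∈ A, C * R ^ (d - k) :=
          Finset.sum_le_sum (fun a _ => hU n hn _ (by omega))
      _ = _ := by rw [Finset.sum_const, nsmul_eq_mul]
  have hAcard : κ * R ≤ A.card := by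
    have h1 : c * (R / 2) ^ e ≤ A.card * (C * R ^ (d - k)) := by
      refine le_trans ?_ (le_trans hlow hup)
      exact mul_le_mul_of_nonneg_left (pow_le_pow_left₀ (by positivity) hR' _) hc.le
    have h2 : (R / 2) ^ e = R ^ (d - k) * (R / 2 ^ e) := by
      rw [div_pow, he, show d + 1 - k = (d - k) + 1 by omega, pow_succ R]
      ring
    have h3 : 0 < R ^ (d - k) := by positivity
    have h4 : c * (R / 2 ^ e) ≤ A.card * C := by
      have h5 : R ^ (d - k) * (c * (R / 2 ^ e)) ≤ R ^ (d - k) * (A.card * C) := by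
        rw [h2] at h1
        linarith
      exact le_of_mul_le_mul_left h5 h3
    have h6 : c / (2 ^ e * C) * R ≤ A.card := by
      have hCpos : 0 < C := by linarith
      have h7 : c / (2 ^ e * C) * R = c * (R / 2 ^ e) / C := by
        field_simp
      rw [h7, div_le_iff₀ hCpos]
      exact h4
    exact le_trans (mul_le_mul_of_nonneg_right (min_le_left _ _) hR0) h6
  -- remove the coordinates close to the radius
  set A' : Finset ℤ := A.filter (fun a => (a.natAbs : ℝ) ≤ (1 - δ) * R) with hA'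
  have hA'card : κ / 2 * R ≤ A'.card := by
    have h1 : A.card = A'.card + (A.filter (fun a => ¬ (a.natAbs : ℝ) ≤ (1 - δ) * R)).card := by
      rw [hA', Finset.card_filter_add_card_filter_not]
    have h2 : A.filter (fun a => ¬ (a.natAbs : ℝ) ≤ (1 - δ) * R) ⊆
        (Q k n).filter (fun a => (1 - δ) * rad k n < (a.natAbs : ℝ)) := by
      intro a ha
      rw [hA, Finset.mem_filter, Finset.mem_filter, mem_Q hk, not_le] at ha
      rw [Finset.mem_filter, mem_Q hk]
      exact ⟨by omega, ha.2⟩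
    have h3 := card_shell (k := k) (n := n) hk hδ0 hδ1
    have h4 : ((A.filter (fun a => ¬ (a.natAbs : ℝ) ≤ (1 - δ) * R)).card : ℝ) ≤ 2 * (δ * R + 1) :=
      le_trans (by exact_mod_cast Finset.card_le_card h2) h3
    have h5 : (A.card : ℝ) = A'.card +
        (A.filter (fun a => ¬ (a.natAbs : ℝ) ≤ (1 - δ) * R)).card := by exact_mod_cast h1
    have h6 : 8 ≤ R * κ := by
      rw [div_le_iff₀ hκ0] at hRa
      exact hRa
    rw [hδ] at h4
    nlinarith
  -- lower bound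
  have hsub : A' ⊆ Q k n := by
    intro a ha
    rw [hA', hA, Finset.mem_filter, Finset.mem_filter, mem_Q hk] at ha
    rw [mem_Q hk]
    omega
  have hterm : ∀ a ∈ A', c * (δ * R) ^ e ≤ ((T k (d + 1) (n - a.natAbs ^ k)).card : ℝ) := by
    intro a ha
    rw [hA', hA, Finset.mem_filter, Finset.mem_filter, mem_Q hk] at ha
    obtain ⟨⟨ha1, m', hm'⟩, ha3⟩ := ha
    have hne : (T k (d + 1) (n - a.natAbs ^ k)).Nonempty := by
      refine ⟨Fin.cons (m i) m', ?_⟩
      have h1 := cons_mem hk (m i) m' hm'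
      rwa [show (m i).natAbs ^ k + (n' - a.natAbs ^ k) = n - a.natAbs ^ k by omega] at h1
    have hle : δ * R ≤ rad k (n - a.natAbs ^ k) := by
      refine le_rad hk ?_ (by positivity)
      rw [Nat.cast_sub (by omega), Nat.cast_pow, ← hRk]
      have h1 : (a.natAbs : ℝ) ^ k ≤ ((1 - δ) * R) ^ k := pow_le_pow_left₀ (Nat.cast_nonneg _) ha3 _
      rw [mul_pow] at h1 ⊢
      have h2 : δ ^ k ≤ δ := pow_le_of_le_one hδ0.le hδ1 (by omega)
      have h3 : (1 - δ) ^ k ≤ 1 - δ := pow_le_of_le_one (by linarith) (by linarith) (by omega)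
      have h4 : 0 ≤ R ^ k := by positivity
      nlinarith
    have hpos : 0 < δ * R := by positivity
    have h1 : 1 ≤ n - a.natAbs ^ k := by
      by_contra hcon
      have h0 : n - a.natAbs ^ k = 0 := by omega
      rw [h0] at hle
      have h2 : rad k 0 = 0 := by
        unfold rad
        rw [Nat.cast_zero, Real.zero_rpow]
        have : (0 : ℝ) < k := by exact_mod_cast hk
        positivity
      linarith
    have h2 : R₀ ≤ rad k (n - a.natAbs ^ k) := by
      refine le_trans ?_ hle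
      rw [div_le_iff₀ hδ0] at hRc
      linarith
    refine le_trans ?_ (hL _ h1 h2 hne)
    exact mul_le_mul_of_nonneg_left (pow_le_pow_left₀ hpos.le hle _) hc.le
  rw [card_rec hk, Nat.cast_sum]
  calc κ / 2 * (c * δ ^ e) * R ^ (d + 2 - k)
      = (κ / 2 * R) * (c * (δ * R) ^ e) := by
        rw [show d + 2 - k = e + 1 by omega, mul_pow, pow_succ]
        ring
    _ ≤ A'.card * (c * (δ * R) ^ e) := mul_le_mul_of_nonneg_right hA'card (by positivity)
    _ = ∑ a ∈ A', c * (δ * R) ^ e := by rw [Finset.sum_const, nsmul_eq_mul]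
    _ ≤ ∑ a ∈ A', ((T k (d + 1) (n - a.natAbs ^ k)).card : ℝ) := Finset.sum_le_sum hterm
    _ ≤ ∑ a ∈ Q k n, ((T k (d + 1) (n - a.natAbs ^ k)).card : ℝ) :=
        Finset.sum_le_sum_of_subset_of_nonneg hsub (fun _ _ _ => Nat.cast_nonneg _)

/-- Monotonicity of the upper bound. -/
theorem upper_mono {k d : ℕ} (hk : 1 ≤ k) (hd : 1 ≤ d) (h : UpperHolds k d) (e : ℕ) (he : d ≤ e) :
    UpperHolds k e := by
  have hkd := le_of_upper hk hd h
  have h1 : U k e := by
    induction e, he using Nat.le_induction with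
    | base => exact U_of_upper hk hd h
    | succ e he ih => exact U_succ hk (by omega) ih
  exact upper_of_U hk (by omega) h1

/-- If the upper bound holds in dimension `d` and the lower bound in some dimension `d' > d`, then the
order of magnitude holds in every dimension `e ≥ d'`. -/
theorem order_of_upper_lower {k d d' : ℕ} (hk : 1 ≤ k) (hd : 1 ≤ d) (hdd : d < d')
    (hU : UpperHolds k d) (hL : LowerHolds k d') (e : ℕ) (he : d' ≤ e) : OrderHolds k e := by
  have hkd := le_of_upper hk hd hU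
  have h1 : L k e := by
    induction e, he using Nat.le_induction with
    | base => exact L_of_lower hk (by omega) hL
    | succ e he ih =>
      obtain ⟨f, rfl⟩ : ∃ f, e = f + 1 := ⟨e - 1, by omega⟩
      exact L_succ hk (by omega) (U_of_upper hk (by omega) (upper_mono hk hd hU f (by omega))) ih
  exact order_iff.2 ⟨upper_mono hk hd hU e (by omega), lower_of_L hk (by omega) h1⟩

/-- The set of dimensions in which `N_{k,d}(r) ≍ r^{d-k}` holds is an infinite ray plus at most one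
smaller dimension. -/
theorem result (k : ℕ) (hk : 1 ≤ k) :
    (∀ d d' : ℕ, 1 ≤ d → d < d' → OrderHolds k d → OrderHolds k d' →
      ∀ e : ℕ, d' ≤ e → OrderHolds k e) ∧
    (∀ d : ℕ, 1 ≤ d → UpperHolds k d → k ≤ d ∧ ∀ e : ℕ, d ≤ e → UpperHolds k e) ∧
    (∀ d d' : ℕ, 1 ≤ d → d < d' → UpperHolds k d → LowerHolds k d' →
      ∀ e : ℕ, d' ≤ e → OrderHolds k e) :=
  ⟨fun _ _ hd hdd h h' e he => order_of_upper_lower hk hd hdd (order_iff.1 h).1 (order_iff.1 h').2 e he,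
    fun _ hd h => ⟨le_of_upper hk hd h, fun e he => upper_mono hk hd h e he⟩,
    fun _ _ hd hdd hU hL e he => order_of_upper_lower hk hd hdd hU hL e he⟩

end Pool.Agent.Results.MP_927be3_nt.TwoGoodDimensions
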